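import Pool.Agent.E8helper2.PS.Main

set_option autoImplicit false
open MeasureTheory Filter Topology
namespace Pool.Agent.E8helper2.PS

theorem final (hMain : S_MAIN) (hReg : S_REG) (hR : S_RIESZ) :
  ∀ (a : ℕ → ℂ) (E : Set ℂ),
    E = {ξ : ℂ | ‖ξ‖ = 1 ∧ ¬ ∃ r : ℝ, 0 < r ∧ ∃ g : ℂ → ℂ,
          DifferentiableOn ℂ g (Metric.ball ξ r) ∧
          ∀ w ∈ Metric.ball ξ r, ‖w‖ < 1 → g w = ∑' n, a n * w ^ n} →
    (∃ M : ℝ, ∀ ξ ∈ E, ∀ N : ℕ, ‖∑ n ∈ Finset.range (N + 1), a n * ξ ^ n‖ ≤ M) →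
    E.Nonempty →
    ∀ z : ℂ, ‖z‖ = 1 → z ∉ E →
      ∃ L : ℂ, Filter.Tendsto (fun N : ℕ => ∑ n ∈ Finset.range N, a n * z ^ n)
            Filter.atTop (nhds L) ∧
        ∃ r : ℝ, 0 < r ∧ ∃ g : ℂ → ℂ, DifferentiableOn ℂ g (Metric.ball z r) ∧
          (∀ w ∈ Metric.ball z r, ‖w‖ < 1 → g w = ∑' n, a n * w ^ n) ∧ g z = L := by
  intro a E hE ⟨M, hM⟩ hne z hz hzE
  -- a point of E
  obtain ⟨ξ0, hξ0⟩ := hne
  have hξ1 : ‖ξ0‖ = 1 := by rw [hE] at hξ0; exact hξ0.1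
  set S : Set ℝ := {θ : ℝ | Complex.exp ((θ : ℂ) * Complex.I) ∈ E} with hSdef
  have nE : ∀ θ : ℝ, ‖Complex.exp ((θ : ℂ) * Complex.I)‖ = 1 := fun θ => Complex.norm_exp_ofReal_mul_I θ
  have hreg : ∀ θ : ℝ, θ ∉ S → ∃ r : ℝ, 0 < r ∧ ∃ g : ℂ → ℂ,
      DifferentiableOn ℂ g (Metric.ball (Complex.exp ((θ : ℂ) * Complex.I)) r) ∧
      ∀ w ∈ Metric.ball (Complex.exp ((θ : ℂ) * Complex.I)) r, ‖w‖ < 1 → g w = ∑' n, a n * w ^ n := by
    intro θ hθ
    by_contra hcon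
    apply hθ
    show Complex.exp ((θ : ℂ) * Complex.I) ∈ E
    rw [hE]
    exact ⟨nE θ, hcon⟩
  have hM0 : 0 ≤ M := le_trans (norm_nonneg _) (hM ξ0 hξ0 0)
  have hpart : ∀ ξ ∈ E, ∀ N : ℕ, ‖∑ n ∈ Finset.range N, a n * ξ ^ n‖ ≤ M := by
    intro ξ hξ N
    cases N with
    | zero => simpa using hM0
    | succ N => exact hM ξ hξ N
  have hwin : ∀ θ ∈ S, Win a (2 * M) θ := by
    intro θ hθ p q
    have hc : ∀ j : ℕ, a j * Complex.exp (Complex.I * j * (θ : ℂ)) =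
        a j * (Complex.exp ((θ : ℂ) * Complex.I)) ^ j := by
      intro j
      rw [← Complex.exp_nat_mul]; congr 2; ring
    simp_rw [hc]
    rcases le_or_gt p q with hpq | hpq
    · rw [Finset.sum_Ico_eq_sub _ hpq]
      refine (norm_sub_le _ _).trans ?_
      have := hpart _ hθ q
      have := hpart _ hθ p
      linarith
    · rw [Finset.Ico_eq_empty (by omega)]
      simp; linarith
  -- a base point
  have hx : ξ0.arg ∈ S := by
    show Complex.exp ((ξ0.arg : ℂ) * Complex.I) ∈ E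
    have := Complex.norm_mul_exp_arg_mul_I ξ0
    rw [hξ1] at this
    simp only [Complex.ofReal_one, one_mul] at this
    rw [this]; exact hξ0
  have hx' : ξ0.arg + 2 * Real.pi ∈ S := by
    show Complex.exp (((ξ0.arg + 2 * Real.pi : ℝ) : ℂ) * Complex.I) ∈ E
    have e : Complex.exp (((ξ0.arg + 2 * Real.pi : ℝ) : ℂ) * Complex.I) =
        Complex.exp ((ξ0.arg : ℂ) * Complex.I) := by
      push_cast
      rw [add_mul, Complex.exp_add]
      rw [show (2 * (Real.pi : ℂ) * Complex.I) = 2 * Real.pi * Complex.I from rfl, Complex.exp_two_pi_mul_I]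
      ring
    rw [e]; exact hx
  have hcoef : ∀ n, ‖a n‖ ≤ 2 * M := by
    intro n
    have h := hwin _ hx n (n + 1)
    rw [Finset.sum_Ico_succ_top (le_refl n), Finset.Ico_self, Finset.sum_empty, zero_add, norm_mul] at h
    have : ‖Complex.exp (Complex.I * n * (ξ0.arg : ℂ))‖ = 1 := by
      rw [show Complex.I * n * (ξ0.arg : ℂ) = ((n * ξ0.arg : ℝ) : ℂ) * Complex.I by push_cast; ring]
      exact Complex.norm_exp_ofReal_mul_I _
    rw [this, mul_one] at h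
    exact h
  have hclosed : IsClosed S := by
    rw [← isOpen_compl_iff, Metric.isOpen_iff]
    intro θ hθ
    obtain ⟨r, hr, g, hg1, hg2⟩ := hreg θ hθ
    have hcont : Continuous fun θ : ℝ => Complex.exp ((θ : ℂ) * Complex.I) := by fun_prop
    have hev := (Metric.continuous_iff.mp hcont θ (r / 2) (by positivity))
    obtain ⟨d, hd, hev⟩ := hev
    refine ⟨d, hd, ?_⟩
    intro θ' hθ'
    have h1 := hev θ' (by simpa using hθ')
    intro hmem
    have hmem' : Complex.exp ((θ' : ℂ) * Complex.I) ∈ E := hmem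
    rw [hE] at hmem'
    apply hmem'.2
    have hsub : Metric.ball (Complex.exp ((θ' : ℂ) * Complex.I)) (r / 2) ⊆
        Metric.ball (Complex.exp ((θ : ℂ) * Complex.I)) r := by
      apply Metric.ball_subset_ball'
      linarith
    exact ⟨r / 2, by positivity, g, hg1.mono hsub, fun w hw => hg2 w (hsub hw)⟩
  have ha : Tendsto a atTop (𝓝 0) := by
    refine hMain a (2 * M) S ⟨hclosed, hcoef, hwin⟩ ξ0.arg hx hx' ?_
    intro e₁ h1 e₂ h2 h12 hgap
    exact hReg a (2 * M) e₁ e₂ hcoef h12 (fun θ hθ => hreg θ (hgap θ hθ))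
  -- conclusion
  have hz' : ∃ r : ℝ, 0 < r ∧ ∃ g : ℂ → ℂ, DifferentiableOn ℂ g (Metric.ball z r) ∧
          ∀ w ∈ Metric.ball z r, ‖w‖ < 1 → g w = ∑' n, a n * w ^ n := by
    by_contra hcon
    exact hzE (by rw [hE]; exact ⟨hz, hcon⟩)
  obtain ⟨r, hr, g, hg1, hg2⟩ := hz'
  exact ⟨g z, hR a z r g ha hz hr hg1 hg2, r, hr, g, hg1, hg2, rfl⟩

end Pool.Agent.E8helper2.PS
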