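import Pool.Agent.E8helper2.PS.Stm

set_option autoImplicit false
open MeasureTheory Filter Topology
namespace Pool.Agent.E8helper2.PS

theorem rv_le (a : ℕ → ℂ) (M : ℝ) (h : ∀ n, ‖a n‖ ≤ M) (N j : ℕ) : ‖rv a N j‖ ≤ M := by
  have h0 : 0 ≤ M := le_trans (norm_nonneg _) (h 0)
  unfold rv
  split_ifs
  · exact h _
  · simpa using h0

theorem cont_comp (hC : S_CONT) (c : ℕ → ℂ) (M : ℝ) (h : ∀ n, ‖c n‖ ≤ M) (φ : ℝ → ℂ) (hφ : Continuous φ)
    (hp : ∀ θ, 0 < (φ θ).im) : Continuous fun θ => Phi c (φ θ) :=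
  (hC c M h).1.continuousOn.comp_continuous hφ hp

theorem cont_Dl (hC : S_CONT) (a : ℕ → ℂ) (M : ℝ) (h : ∀ n, ‖a n‖ ≤ M) (N : ℕ) (t : ℝ) (ht : 0 < t) :
    Continuous fun θ : ℝ => Dl a N t θ := by
  unfold Dl
  refine Continuous.add (cont_comp hC (sh a N) M (fun n => h _) _ (by fun_prop) ?_)
    (cont_comp hC (rv a N) M (rv_le a M h N) _ (by fun_prop) ?_)
  · intro θ; simpa using ht
  · intro θ; simpa using ht

/-- two heights over one gap -/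
theorem gap_move (hW : S_WIN) (hC : S_CONT) (hB : S_BOX) (a : ℕ → ℂ) (M : ℝ) (S : Set ℝ) (H : Hyp a M S)
    (e₁ e₂ : ℝ) (h1 : e₁ ∈ S) (h2 : e₂ ∈ S) (h12 : e₁ < e₂) (N : ℕ) (t t' : ℝ) (ht : 0 < t) (htt : t ≤ t') :
    ‖(∫ θ in e₁..e₂, Dl a N t θ) - ∫ θ in e₁..e₂, Dl a N t' θ‖ ≤ 4 * M * (t' - t) := by
  have c1 : ∀ s : ℝ, 0 < s → Continuous fun θ : ℝ => Phi (sh a N) ((θ : ℂ) + s * Complex.I) := fun s hs =>
    cont_comp hC (sh a N) M (fun n => H.coef _) _ (by fun_prop) (fun θ => by simpa using hs)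
  have c2 : ∀ s : ℝ, 0 < s → Continuous fun θ : ℝ => Phi (rv a N) (-(θ : ℂ) + s * Complex.I) := fun s hs =>
    cont_comp hC (rv a N) M (rv_le a M H.coef N) _ (by fun_prop) (fun θ => by simpa using hs)
  have split : ∀ s : ℝ, 0 < s → ∫ θ in e₁..e₂, Dl a N s θ =
      (∫ θ in e₁..e₂, Phi (sh a N) ((θ : ℂ) + s * Complex.I)) +
        ∫ θ in (-e₂)..(-e₁), Phi (rv a N) ((θ : ℂ) + s * Complex.I) := by
    intro s hs
    unfold Dl
    rw [intervalIntegral.integral_add ((c1 s hs).intervalIntegrable _ _) ((c2 s hs).intervalIntegrable _ _)]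
    congr 1
    rw [← intervalIntegral.integral_comp_neg (fun θ : ℝ => Phi (rv a N) ((θ : ℂ) + s * Complex.I))]
    simp
  have ht' : 0 < t' := lt_of_lt_of_le ht htt
  rw [split t ht, split t' ht']
  have w1 := hW a M e₁ (H.win e₁ h1) N
  have w2 := hW a M e₂ (H.win e₂ h2) N
  have b1 := hB (sh a N) M e₁ e₂ t t' (fun n => H.coef _) w1.1 w2.1 h12 ht htt
  have b2 := hB (rv a N) M (-e₂) (-e₁) t t' (rv_le a M H.coef N) w2.2 w1.2 (by linarith) ht htt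
  calc _ = ‖((∫ θ in e₁..e₂, Phi (sh a N) ((θ : ℂ) + t * Complex.I)) -
        ∫ θ in e₁..e₂, Phi (sh a N) ((θ : ℂ) + t' * Complex.I)) +
        ((∫ θ in (-e₂)..(-e₁), Phi (rv a N) ((θ : ℂ) + t * Complex.I)) -
        ∫ θ in (-e₂)..(-e₁), Phi (rv a N) ((θ : ℂ) + t' * Complex.I))‖ := by congr 1; ring
    _ ≤ _ := norm_add_le _ _
    _ ≤ 2 * M * (t' - t) + 2 * M * (t' - t) := add_le_add b1 b2
    _ = _ := by ring

/-- decomposition of the mean value -/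
theorem decomp (hC : S_CONT) (hM : S_MEAN) (a : ℕ → ℂ) (M : ℝ) (S : Set ℝ) (H : Hyp a M S) (x : ℝ)
    (L : Finset (ℝ × ℝ)) (hL : ∀ p ∈ L, p.1 < p.2 ∧ p.1 ∈ S ∧ p.2 ∈ S ∧ x ≤ p.1 ∧ p.2 ≤ x + 2 * Real.pi ∧
      ∀ θ ∈ Set.Ioo p.1 p.2, θ ∉ S) (N : ℕ) (t : ℝ) (ht : 0 < t) :
    ‖2 * Real.pi * a N - ∫ θ in (S ∩ Set.Icc x (x + 2 * Real.pi)), Dl a N t θ‖ ≤
      (∑ p ∈ L, ‖∫ θ in p.1..p.2, Dl a N t θ‖) +
      ‖∫ θ in ((Set.Ioo x (x + 2 * Real.pi) \ S) \ ⋃ p ∈ L, Set.Ioo p.1 p.2), Dl a N t θ‖ := by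
  have hc := cont_Dl hC a M H.coef N t ht
  have hx : x ≤ x + 2 * Real.pi := by have := Real.pi_pos; linarith
  have hint : IntegrableOn (fun θ : ℝ => Dl a N t θ) (Set.Icc x (x + 2 * Real.pi)) :=
    hc.continuousOn.integrableOn_Icc
  have hV : MeasurableSet (⋃ p ∈ L, Set.Ioo p.1 p.2) :=
    L.measurableSet_biUnion (fun p _ => measurableSet_Ioo)
  have hVsub : (⋃ p ∈ L, Set.Ioo p.1 p.2) ⊆ Set.Ioo x (x + 2 * Real.pi) \ S := by
    intro θ hθ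
    simp only [Set.mem_iUnion] at hθ
    obtain ⟨p, hp, hθ⟩ := hθ
    obtain ⟨_, _, _, h4, h5, h6⟩ := hL p hp
    exact ⟨⟨lt_of_le_of_lt h4 hθ.1, lt_of_lt_of_le hθ.2 h5⟩, h6 θ hθ⟩
  have hS := H.closed.measurableSet
  have e1 : ∫ θ in x..(x + 2 * Real.pi), Dl a N t θ =
      ∫ θ in Set.Ioo x (x + 2 * Real.pi), Dl a N t θ := by
    rw [intervalIntegral.integral_of_le hx, integral_Ioc_eq_integral_Ioo]
  have e2 : ∫ θ in (S ∩ Set.Icc x (x + 2 * Real.pi)), Dl a N t θ =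
      ∫ θ in (Set.Ioo x (x + 2 * Real.pi) ∩ S), Dl a N t θ := by
    apply setIntegral_congr_set
    have h := (Ioo_ae_eq_Icc (μ := (volume : Measure ℝ)) (a := x) (b := x + 2 * Real.pi))
    have h' : (Set.Ioo x (x + 2 * Real.pi) ∩ S : Set ℝ) =ᵐ[volume]
        (Set.Icc x (x + 2 * Real.pi) ∩ S : Set ℝ) := h.inter (ae_eq_refl _)
    rw [Set.inter_comm S]
    exact h'.symm
  have e3 : ∫ θ in Set.Ioo x (x + 2 * Real.pi), Dl a N t θ =
      (∫ θ in (Set.Ioo x (x + 2 * Real.pi) ∩ S), Dl a N t θ) +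
      ∫ θ in (Set.Ioo x (x + 2 * Real.pi) \ S), Dl a N t θ :=
    (integral_inter_add_diff hS (hint.mono_set Set.Ioo_subset_Icc_self)).symm
  have e4 : ∫ θ in (Set.Ioo x (x + 2 * Real.pi) \ S), Dl a N t θ =
      (∫ θ in ((Set.Ioo x (x + 2 * Real.pi) \ S) ∩ ⋃ p ∈ L, Set.Ioo p.1 p.2), Dl a N t θ) +
      ∫ θ in ((Set.Ioo x (x + 2 * Real.pi) \ S) \ ⋃ p ∈ L, Set.Ioo p.1 p.2), Dl a N t θ :=
    (integral_inter_add_diff hV (hint.mono_set (Set.diff_subset.trans Set.Ioo_subset_Icc_self))).symm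
  have e5 : ((Set.Ioo x (x + 2 * Real.pi) \ S) ∩ ⋃ p ∈ L, Set.Ioo p.1 p.2) = ⋃ p ∈ L, Set.Ioo p.1 p.2 :=
    Set.inter_eq_right.mpr hVsub
  have e6 : ∫ θ in (⋃ p ∈ L, Set.Ioo p.1 p.2), Dl a N t θ = ∑ p ∈ L, ∫ θ in p.1..p.2, Dl a N t θ := by
    rw [integral_biUnion_finset]
    · apply Finset.sum_congr rfl
      intro p hp
      rw [intervalIntegral.integral_of_le (hL p hp).1.le, integral_Ioc_eq_integral_Ioo]
    · intro p _; exact measurableSet_Ioo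
    · intro p hp q hq hpq
      rw [Function.onFun, Set.disjoint_left]
      intro θ h1 h2
      apply hpq
      obtain ⟨p0, p1, p2, p3, p4, p5⟩ := hL p hp
      obtain ⟨q0, q1, q2, q3, q4, q5⟩ := hL q hq
      have A : p.1 = q.1 := by
        rcases lt_trichotomy p.1 q.1 with h | h | h
        · exact absurd q1 (p5 q.1 ⟨h, by have := h1.2; have := h2.1; linarith⟩)
        · exact h
        · exact absurd p1 (q5 p.1 ⟨h, by have := h2.2; have := h1.1; linarith⟩)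
      have B : p.2 = q.2 := by
        rcases lt_trichotomy p.2 q.2 with h | h | h
        · exact absurd p2 (q5 p.2 ⟨by have := h1.2; have := h2.1; linarith, h⟩)
        · exact h
        · exact absurd q2 (p5 q.2 ⟨by have := h2.2; have := h1.1; linarith, h⟩)
      exact Prod.ext A B
    · intro p hp
      exact hint.mono_set ((Set.subset_biUnion_of_mem (u := fun p : ℝ × ℝ => Set.Ioo p.1 p.2) hp).trans
        (hVsub.trans (Set.diff_subset.trans Set.Ioo_subset_Icc_self)))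
  have key : 2 * Real.pi * a N - ∫ θ in (S ∩ Set.Icc x (x + 2 * Real.pi)), Dl a N t θ =
      (∑ p ∈ L, ∫ θ in p.1..p.2, Dl a N t θ) +
      ∫ θ in ((Set.Ioo x (x + 2 * Real.pi) \ S) \ ⋃ p ∈ L, Set.Ioo p.1 p.2), Dl a N t θ := by
    rw [← hM a M H.coef N t x ht, e1, e2, e3, e4, e5, e6]; ring
  rw [key]
  exact (norm_add_le _ _).trans (add_le_add (norm_sum_le _ _) le_rfl)

theorem t_MAIN (hW : S_WIN) (hA : S_ABEL) (hC : S_CONT) (hB : S_BOX) (hM : S_MEAN) (hCell : S_CELL) (hF : S_FIN)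
    (hL : S_LONG) (hK : S_KLIM) (hBes : S_BES) : S_MAIN := by
  intro a M S H x hx hx' hreg
  have hM0 : 0 ≤ M := le_trans (norm_nonneg _) (H.coef 0)
  by_contra hcon
  rw [Metric.tendsto_atTop] at hcon
  push_neg at hcon
  obtain ⟨δ, hδ, hfreq⟩ := hcon
  have hpi := Real.pi_pos
  obtain ⟨ε, hε, hεδ⟩ : ∃ ε : ℝ, 0 < ε ∧ (12 * M + 3) * ε ≤ Real.pi * δ :=
    ⟨Real.pi * δ / (12 * M + 3), by positivity, by field_simp; exact le_rfl⟩
  obtain ⟨L, hL1, hL2⟩ := hF S x H.closed hx hx' ε hε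
  obtain ⟨τc, hτc, hcell⟩ := hCell a M S H x hx hx' L hL1
  have hlong : ∀ p : ℝ × ℝ, ∃ τ₁ : ℝ, 0 < τ₁ ∧ (p ∈ L → ∀ τ : ℝ, 0 < τ → τ < τ₁ → ∃ N₀ : ℕ, ∀ N, N₀ ≤ N →
      ‖∫ θ in p.1..p.2, Dl a N τ θ‖ ≤ ε / (L.card + 1)) := by
    intro p
    by_cases hp : p ∈ L
    · obtain ⟨p0, p1, p2, p3, p4, p5⟩ := hL1 p hp
      obtain ⟨τ₁, h1, h2⟩ := hL a M p.1 p.2 H.coef (H.win _ p1) (H.win _ p2) p0 (hreg _ p1 _ p2 p0 p5)
        (ε / (L.card + 1)) (by positivity)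
      exact ⟨τ₁, h1, fun _ => h2⟩
    · exact ⟨1, one_pos, fun h => absurd h hp⟩
  choose τf hτf hτf2 using hlong
  obtain ⟨τ, hτ, hτ1, hτ2, hτ3⟩ : ∃ τ : ℝ, 0 < τ ∧ τ < τc ∧ (∀ p ∈ L, τ < τf p) ∧ 4 * M * τ * L.card ≤ ε := by
    have e1 : ∀ᶠ τ : ℝ in 𝓝[>] 0, τ < τc := by
      filter_upwards [Ioo_mem_nhdsGT hτc] with τ h using h.2
    have e2 : ∀ᶠ τ : ℝ in 𝓝[>] 0, ∀ p ∈ L, τ < τf p := by
      rw [Filter.eventually_all_finset]
      intro p _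
      filter_upwards [Ioo_mem_nhdsGT (hτf p)] with τ h using h.2
    have e3 : ∀ᶠ τ : ℝ in 𝓝[>] 0, 4 * M * τ * L.card ≤ ε := by
      have hpos : (0 : ℝ) < ε / (4 * M * L.card + 1) := by positivity
      filter_upwards [Ioo_mem_nhdsGT hpos] with τ h
      have h2 := h.2
      rw [lt_div_iff₀ (by positivity)] at h2
      nlinarith [h.1]
    have e4 : ∀ᶠ τ : ℝ in 𝓝[>] 0, 0 < τ := self_mem_nhdsWithin
    obtain ⟨τ, h⟩ := (((e1.and e2).and e3).and e4).exists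
    exact ⟨τ, h.2, h.1.1.1, h.1.1.2, h.1.2⟩
  -- N large
  have hN0 : ∃ N₀ : ℕ, ∀ N, N₀ ≤ N → ∀ p ∈ L, ‖∫ θ in p.1..p.2, Dl a N τ θ‖ ≤ ε / (L.card + 1) := by
    have : ∀ᶠ N : ℕ in atTop, ∀ p ∈ L, ‖∫ θ in p.1..p.2, Dl a N τ θ‖ ≤ ε / (L.card + 1) := by
      rw [Filter.eventually_all_finset]
      intro p hp
      obtain ⟨N₀, h⟩ := hτf2 p hp τ hτ (hτ2 p hp)
      filter_upwards [eventually_ge_atTop N₀] with N hN using h N hN
    exact eventually_atTop.mp this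
  obtain ⟨N₀, hN₀⟩ := hN0
  have hgap : ∀ N, N₀ ≤ N → ∀ t : ℝ, 0 < t → t ≤ τ →
      ‖2 * Real.pi * a N - ∫ θ in (S ∩ Set.Icc x (x + 2 * Real.pi)), Dl a N t θ‖ ≤ (12 * M + 2) * ε := by
    intro N hN t ht htτ
    refine (decomp hC hM a M S H x L hL1 N t ht).trans ?_
    have h1 : ∑ p ∈ L, ‖∫ θ in p.1..p.2, Dl a N t θ‖ ≤ 2 * ε := by
      have : ∀ p ∈ L, ‖∫ θ in p.1..p.2, Dl a N t θ‖ ≤ ε / (L.card + 1) + 4 * M * τ := by
        intro p hp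
        obtain ⟨p0, p1, p2, p3, p4, p5⟩ := hL1 p hp
        have g := gap_move hW hC hB a M S H p.1 p.2 p1 p2 p0 N t τ ht htτ
        have g2 := hN₀ N hN p hp
        have g3 : ‖∫ θ in p.1..p.2, Dl a N t θ‖ ≤ ‖(∫ θ in p.1..p.2, Dl a N t θ) - ∫ θ in p.1..p.2, Dl a N τ θ‖ +
            ‖∫ θ in p.1..p.2, Dl a N τ θ‖ := by
          have := norm_add_le ((∫ θ in p.1..p.2, Dl a N t θ) - ∫ θ in p.1..p.2, Dl a N τ θ)
            (∫ θ in p.1..p.2, Dl a N τ θ)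
          simpa using this
        have g4 : 4 * M * (τ - t) ≤ 4 * M * τ := by nlinarith
        linarith
      refine (Finset.sum_le_sum this).trans ?_
      rw [Finset.sum_const, nsmul_eq_mul]
      have hcard : (L.card : ℝ) * (ε / (L.card + 1)) ≤ ε := by
        rw [mul_div_assoc', div_le_iff₀ (by positivity)]
        nlinarith [hε]
      nlinarith
    have h2 : ‖∫ θ in ((Set.Ioo x (x + 2 * Real.pi) \ S) \ ⋃ p ∈ L, Set.Ioo p.1 p.2), Dl a N t θ‖ ≤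
        12 * M * ε := by
      refine (hcell N t ht (lt_of_le_of_lt htτ hτ1)).trans ?_
      exact mul_le_mul_of_nonneg_left hL2 (by positivity)
    linarith
  -- many indices
  obtain ⟨m, hm⟩ := exists_nat_gt ((2 * Real.pi * M) ^ 2 / (Real.pi * δ) ^ 2)
  have hinf : Set.Infinite {N : ℕ | N₀ ≤ N ∧ δ ≤ ‖a N‖} := by
    rw [Set.infinite_iff_exists_gt]
    intro n
    obtain ⟨N, h1, h2⟩ := hfreq (max N₀ (n + 1))
    refine ⟨N, ⟨le_trans (le_max_left _ _) h1, by simpa using h2⟩, ?_⟩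
    have := le_trans (le_max_right N₀ (n + 1)) h1
    omega
  obtain ⟨F, hF1, hF2⟩ := hinf.exists_subset_card_eq m
  -- the height
  have hev : ∀ᶠ t : ℝ in 𝓝[>] 0, ∀ N ∈ F,
      ‖(∫ θ in (S ∩ Set.Icc x (x + 2 * Real.pi)), Dl a N t θ) -
    ∫ θ in (S ∩ Set.Icc x (x + 2 * Real.pi)),
      Complex.exp (-(Complex.I * N * (θ : ℂ))) * Phi a ((θ : ℂ) + t * Complex.I)‖ ≤ ε := by
    rw [Filter.eventually_all_finset]
    intro N _
    have h := (hK a M S H x N).norm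
    rw [norm_zero] at h
    exact (h.eventually (eventually_le_nhds hε))
  have hev2 : ∀ᶠ t : ℝ in 𝓝[>] 0, 0 < t ∧ t < τ := by
    filter_upwards [Ioo_mem_nhdsGT hτ] with t h using h
  obtain ⟨t, ht1, ht2, ht3⟩ := (hev.and hev2).exists
  have hlow : ∀ N ∈ F, (Real.pi * δ) ^ 2 ≤ ‖∫ θ in (S ∩ Set.Icc x (x + 2 * Real.pi)),
      Complex.exp (-(Complex.I * N * (θ : ℂ))) * Phi a ((θ : ℂ) + t * Complex.I)‖ ^ 2 := by
    intro N hN
    have hNF := hF1 hN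
    have g1 := hgap N hNF.1 t ht2 ht3.le
    have g2 := ht1 N hN
    have g3 : 2 * Real.pi * ‖a N‖ ≤ ‖2 * Real.pi * a N - ∫ θ in (S ∩ Set.Icc x (x + 2 * Real.pi)), Dl a N t θ‖ +
        ‖(∫ θ in (S ∩ Set.Icc x (x + 2 * Real.pi)), Dl a N t θ) -
    ∫ θ in (S ∩ Set.Icc x (x + 2 * Real.pi)),
      Complex.exp (-(Complex.I * N * (θ : ℂ))) * Phi a ((θ : ℂ) + t * Complex.I)‖ +
      ‖∫ θ in (S ∩ Set.Icc x (x + 2 * Real.pi)),
      Complex.exp (-(Complex.I * N * (θ : ℂ))) * Phi a ((θ : ℂ) + t * Complex.I)‖ := by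
      have e : ‖(2 * Real.pi * a N : ℂ)‖ = 2 * Real.pi * ‖a N‖ := by
        rw [norm_mul, norm_mul]
        simp [abs_of_pos hpi]
      rw [← e]
      refine le_trans ?_ (norm_add₃_le)
      apply le_of_eq
      congr 1
      ring
    have g4 : 2 * Real.pi * δ ≤ 2 * Real.pi * ‖a N‖ := by
      have := hNF.2
      exact mul_le_mul_of_nonneg_left this (by positivity)
    apply pow_le_pow_left₀ (by positivity)
    nlinarith
  have hbes := hBes (S ∩ Set.Icc x (x + 2 * Real.pi)) x M (fun θ => Phi a ((θ : ℂ) + t * Complex.I))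
    (H.closed.measurableSet.inter measurableSet_Icc) Set.inter_subset_right
    (cont_comp hC a M H.coef _ (by fun_prop) (fun θ => by simpa using ht2)) hM0
    (fun θ hθ => hA a M θ t (H.win θ hθ.1) ht2) F
  have hsum := Finset.sum_le_sum hlow
  rw [Finset.sum_const, hF2, nsmul_eq_mul] at hsum
  rw [div_lt_iff₀ (by positivity)] at hm
  linarith

end Pool.Agent.E8helper2.PS
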