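import Mathlib

set_option autoImplicit false
open MeasureTheory Filter Topology
namespace Pool.Agent.E8helper2.PS

/-- `∑ c_j e^{ijw}` (for `Im w > 0`, bounded coefficients) -/
noncomputable def Phi (c : ℕ → ℂ) (w : ℂ) : ℂ := ∑' j : ℕ, c j * Complex.exp (Complex.I * j * w)

/-- all window sums at `κ` are at most `M` -/
def Win (c : ℕ → ℂ) (M κ : ℝ) : Prop :=
  ∀ p q : ℕ, ‖∑ j ∈ Finset.Ico p q, c j * Complex.exp (Complex.I * j * (κ : ℂ))‖ ≤ M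

def sh (a : ℕ → ℂ) (N : ℕ) : ℕ → ℂ := fun j => a (N + j)
def rv (a : ℕ → ℂ) (N : ℕ) : ℕ → ℂ := fun j => if 1 ≤ j ∧ j ≤ N then a (N - j) else 0

noncomputable def Dl (a : ℕ → ℂ) (N : ℕ) (t θ : ℝ) : ℂ :=
  Phi (sh a N) ((θ : ℂ) + t * Complex.I) + Phi (rv a N) (-(θ : ℂ) + t * Complex.I)

structure Hyp (a : ℕ → ℂ) (M : ℝ) (S : Set ℝ) : Prop where
  closed : IsClosed S
  coef : ∀ n, ‖a n‖ ≤ M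
  win : ∀ θ ∈ S, Win a M θ

/-- S_WIN: windows of shifted and reversed sequences -/
def S_WIN : Prop := ∀ (a : ℕ → ℂ) (M κ : ℝ), Win a M κ → ∀ N, Win (sh a N) M κ ∧ Win (rv a N) M (-κ)

/-- S_ABEL: Abel summation -/
def S_ABEL : Prop := ∀ (c : ℕ → ℂ) (M κ t : ℝ), Win c M κ → 0 < t →
  ‖Phi c ((κ : ℂ) + t * Complex.I)‖ ≤ M

/-- S_POLY: Phragmén–Lindelöf for short windows in a thin strip -/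
def S_POLY : Prop := ∀ (c : ℕ → ℂ) (M κ κ' : ℝ) (l : ℕ), Win c M κ → Win c M κ' → κ < κ' →
  (l : ℝ) * (κ' - κ) ≤ 3 / 2 → 1 ≤ l → ∀ (p : ℕ) (w : ℂ), κ ≤ w.re → w.re ≤ κ' → 0 ≤ w.im →
  ‖∑ j ∈ Finset.range l, c (p + j) * Complex.exp (Complex.I * j * w)‖ ≤ 2 * M

/-- S_SEC -/
def S_SEC : Prop := ∀ (c : ℕ → ℂ) (M κ κ' : ℝ), (∀ n, ‖c n‖ ≤ M) → Win c M κ → Win c M κ' → κ < κ' →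
  ∀ θ t : ℝ, κ ≤ θ → θ ≤ κ' → (κ' - κ ≤ t ∨ 1 / 2 ≤ t) → 0 < t →
  ‖Phi c ((θ : ℂ) + t * Complex.I)‖ ≤ 4 * M

/-- S_BOX: Cauchy on a rectangle -/
def S_BOX : Prop := ∀ (c : ℕ → ℂ) (M κ κ' t t' : ℝ), (∀ n, ‖c n‖ ≤ M) → Win c M κ → Win c M κ' →
  κ < κ' → 0 < t → t ≤ t' →
  ‖(∫ θ in κ..κ', Phi c ((θ : ℂ) + t * Complex.I)) - ∫ θ in κ..κ', Phi c ((θ : ℂ) + t' * Complex.I)‖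
    ≤ 2 * M * (t' - t)

/-- S_MEAN -/
def S_MEAN : Prop := ∀ (a : ℕ → ℂ) (M : ℝ), (∀ n, ‖a n‖ ≤ M) → ∀ (N : ℕ) (t x : ℝ), 0 < t →
  ∫ θ in x..(x + 2 * Real.pi), Dl a N t θ = 2 * Real.pi * a N

/-- S_CONT: continuity of `Dl` and of `Phi` -/
def S_CONT : Prop := ∀ (c : ℕ → ℂ) (M : ℝ), (∀ n, ‖c n‖ ≤ M) →
  (DifferentiableOn ℂ (Phi c) {w : ℂ | 0 < w.im}) ∧
  (∀ w : ℂ, 0 < w.im → w.im ≤ 1 → ‖Phi c w‖ ≤ 2 * M / w.im) ∧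
  (∀ w : ℂ, 0 < w.im → w.im ≤ 1 → ‖deriv (Phi c) w‖ ≤ 16 * M / w.im ^ 2)

/-- S_GAPI: integrals over intervals with end points in `S` -/
def S_GAPI : Prop := ∀ (a : ℕ → ℂ) (M : ℝ) (S : Set ℝ), Hyp a M S → ∀ κ ∈ S, ∀ κ' ∈ S, κ < κ' →
  ∀ (N : ℕ) (t : ℝ), 0 < t →
  (t ≤ κ' - κ → ‖∫ θ in κ..κ', Dl a N t θ‖ ≤ 12 * M * (κ' - κ)) ∧
  (κ' - κ ≤ t → ∀ θ ∈ Set.Icc κ κ', ‖Dl a N t θ‖ ≤ 8 * M)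

/-- S_CELL: the small gaps together (from S_GAPI; sup argument) -/
def S_CELL : Prop := ∀ (a : ℕ → ℂ) (M : ℝ) (S : Set ℝ), Hyp a M S → ∀ x ∈ S, x + 2 * Real.pi ∈ S →
  ∀ L : Finset (ℝ × ℝ), (∀ p ∈ L, p.1 < p.2 ∧ p.1 ∈ S ∧ p.2 ∈ S ∧ x ≤ p.1 ∧ p.2 ≤ x + 2 * Real.pi ∧
    ∀ θ ∈ Set.Ioo p.1 p.2, θ ∉ S) →
  ∃ τ : ℝ, 0 < τ ∧ ∀ (N : ℕ) (t : ℝ), 0 < t → t < τ →
    ‖∫ θ in ((Set.Ioo x (x + 2 * Real.pi) \ S) \ ⋃ p ∈ L, Set.Ioo p.1 p.2), Dl a N t θ‖ ≤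
      12 * M * (volume ((Set.Ioo x (x + 2 * Real.pi) \ S) \ ⋃ p ∈ L, Set.Ioo p.1 p.2)).toReal

/-- S_FIN: finitely many gaps fill the complement up to `ε` -/
def S_FIN : Prop := ∀ (S : Set ℝ) (x : ℝ), IsClosed S → x ∈ S → x + 2 * Real.pi ∈ S → ∀ ε : ℝ, 0 < ε →
  ∃ L : Finset (ℝ × ℝ), (∀ p ∈ L, p.1 < p.2 ∧ p.1 ∈ S ∧ p.2 ∈ S ∧ x ≤ p.1 ∧ p.2 ≤ x + 2 * Real.pi ∧
    ∀ θ ∈ Set.Ioo p.1 p.2, θ ∉ S) ∧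
    (volume ((Set.Ioo x (x + 2 * Real.pi) \ S) \ ⋃ p ∈ L, Set.Ioo p.1 p.2)).toReal ≤ ε

/-- S_LONG: one gap, `N → ∞` -/
def S_LONG : Prop := ∀ (a : ℕ → ℂ) (M e₁ e₂ : ℝ), (∀ n, ‖a n‖ ≤ M) → Win a M e₁ → Win a M e₂ → e₁ < e₂ →
  (∃ u : ℂ → ℂ, ContinuousOn u {w : ℂ | 0 < w.im ∨ (w.im = 0 ∧ e₁ < w.re ∧ w.re < e₂)} ∧
    ∀ w : ℂ, 0 < w.im → u w = Phi a w) →
  ∀ ε : ℝ, 0 < ε → ∃ τ₁ : ℝ, 0 < τ₁ ∧ ∀ τ : ℝ, 0 < τ → τ < τ₁ → ∃ N₀ : ℕ, ∀ N, N₀ ≤ N →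
    ‖∫ θ in e₁..e₂, Dl a N τ θ‖ ≤ ε

/-- S_KLIM -/
def S_KLIM : Prop := ∀ (a : ℕ → ℂ) (M : ℝ) (S : Set ℝ), Hyp a M S → ∀ (x : ℝ) (N : ℕ),
  Tendsto (fun t : ℝ => (∫ θ in (S ∩ Set.Icc x (x + 2 * Real.pi)), Dl a N t θ) -
    ∫ θ in (S ∩ Set.Icc x (x + 2 * Real.pi)),
      Complex.exp (-(Complex.I * N * (θ : ℂ))) * Phi a ((θ : ℂ) + t * Complex.I)) (𝓝[>] 0) (𝓝 0)

/-- S_BES: Bessel's inequality -/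
def S_BES : Prop := ∀ (K : Set ℝ) (x M : ℝ) (h : ℝ → ℂ), MeasurableSet K → K ⊆ Set.Icc x (x + 2 * Real.pi) →
  Continuous h → 0 ≤ M → (∀ θ ∈ K, ‖h θ‖ ≤ M) → ∀ F : Finset ℕ,
  ∑ N ∈ F, ‖∫ θ in K, Complex.exp (-(Complex.I * N * (θ : ℂ))) * h θ‖ ^ 2 ≤ (2 * Real.pi * M) ^ 2

/-- S_REG: the continuation on a gap in the variable `w` -/
def S_REG : Prop := ∀ (a : ℕ → ℂ) (M e₁ e₂ : ℝ), (∀ n, ‖a n‖ ≤ M) → e₁ < e₂ →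
  (∀ θ ∈ Set.Ioo e₁ e₂, ∃ r : ℝ, 0 < r ∧ ∃ g : ℂ → ℂ,
    DifferentiableOn ℂ g (Metric.ball (Complex.exp ((θ : ℂ) * Complex.I)) r) ∧
    ∀ w ∈ Metric.ball (Complex.exp ((θ : ℂ) * Complex.I)) r, ‖w‖ < 1 → g w = ∑' n, a n * w ^ n) →
  (∃ u : ℂ → ℂ, ContinuousOn u {w : ℂ | 0 < w.im ∨ (w.im = 0 ∧ e₁ < w.re ∧ w.re < e₂)} ∧
    ∀ w : ℂ, 0 < w.im → u w = Phi a w)

/-- S_RIESZ: the Fatou–Riesz theorem -/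
def S_RIESZ : Prop := ∀ (a : ℕ → ℂ) (z : ℂ) (r : ℝ) (g : ℂ → ℂ), Tendsto a atTop (𝓝 0) → ‖z‖ = 1 → 0 < r →
  DifferentiableOn ℂ g (Metric.ball z r) → (∀ w ∈ Metric.ball z r, ‖w‖ < 1 → g w = ∑' n, a n * w ^ n) →
  Tendsto (fun N : ℕ => ∑ n ∈ Finset.range N, a n * z ^ n) atTop (𝓝 (g z))

/-- S_MAIN: the coefficients tend to zero (assembly of CELL, FIN, LONG, KLIM, BES, MEAN, BOX) -/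
def S_MAIN : Prop := ∀ (a : ℕ → ℂ) (M : ℝ) (S : Set ℝ), Hyp a M S → ∀ x ∈ S, x + 2 * Real.pi ∈ S →
  (∀ e₁ ∈ S, ∀ e₂ ∈ S, e₁ < e₂ → (∀ θ ∈ Set.Ioo e₁ e₂, θ ∉ S) →
    ∃ u : ℂ → ℂ, ContinuousOn u {w : ℂ | 0 < w.im ∨ (w.im = 0 ∧ e₁ < w.re ∧ w.re < e₂)} ∧
    ∀ w : ℂ, 0 < w.im → u w = Phi a w) → Tendsto a atTop (𝓝 0)

end Pool.Agent.E8helper2.PS
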